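import Pool.Agent.U602.MB.Vdc
import Pool.Agent.Y961.JR.Disc

set_option autoImplicit false
set_option linter.unusedSectionVars false

/-! Correlations of products of strongly multiplicative functions along Beatty sequences. -/

namespace Pool.Agent.U602.BE

open Finset
open Pool.Agent.H469R2.NK (e norm_e e_add e_zero conj_e vdcH)
open Pool.Agent.TH915.PW (e_int sum_char e_sub sum_blocks)
open Pool.Agent.U602.MB (corr no_carry c_split crt_sum sum_perm prod_diff_le)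

/-- the classes -/
abbrev Cl (r q : ℕ) : Finset (Fin r → ℕ) := Fintype.piFinset (fun _ : Fin r => range q)

lemma Cl_card (r q : ℕ) : (Cl r q).card = q ^ r := by
  rw [Cl, Fintype.card_piFinset]; simp

/-- sums over the points in terms of the classes -/
lemma class_sum (r q N : ℕ) (ρ : ℕ → Fin r → ℕ) (hρ : ∀ n j, ρ n j < q) (D : ℝ)
    (hD : ∀ v ∈ Cl r q, |(((range N).filter (fun n => ρ n = v)).card : ℝ) - N / (q : ℝ) ^ r| ≤ D)
    (F : (Fin r → ℕ) → ℂ) (hF : ∀ v, ‖F v‖ ≤ 1) :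
    ‖∑ n ∈ range N, F (ρ n) - ((N / (q : ℝ) ^ r : ℝ) : ℂ) * ∑ v ∈ Cl r q, F v‖ ≤
      (q : ℝ) ^ r * D := by
  classical
  have h1 : ∑ n ∈ range N, F (ρ n) = ∑ v ∈ Cl r q,
      (((range N).filter (fun n => ρ n = v)).card : ℂ) * F v := by
    rw [← sum_fiberwise_of_maps_to (g := ρ) (t := Cl r q)]
    · refine sum_congr rfl fun v _ => ?_
      rw [sum_congr rfl (g := fun _ => F v) (fun n hn => by rw [(mem_filter.1 hn).2]), sum_const,
        nsmul_eq_mul]
    · intro n _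
      rw [Fintype.mem_piFinset]
      exact fun j => mem_range.2 (hρ n j)
  rw [h1, mul_sum, ← sum_sub_distrib]
  refine (norm_sum_le _ _).trans ?_
  have h2 : ∀ v ∈ Cl r q, ‖(((range N).filter (fun n => ρ n = v)).card : ℂ) * F v -
      ((N / (q : ℝ) ^ r : ℝ) : ℂ) * F v‖ ≤ D := by
    intro v hv
    rw [← sub_mul, norm_mul]
    have h3 : ((((range N).filter (fun n => ρ n = v)).card : ℂ) - ((N / (q : ℝ) ^ r : ℝ) : ℂ)) =
        (((((range N).filter (fun n => ρ n = v)).card : ℝ) - N / (q : ℝ) ^ r : ℝ) : ℂ) := by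
      push_cast; ring
    rw [h3, Complex.norm_real, Real.norm_eq_abs]
    calc _ ≤ D * 1 := mul_le_mul (hD v hv) (hF v) (norm_nonneg _) ((abs_nonneg _).trans (hD v hv))
      _ = D := mul_one D
  refine (sum_le_card_nsmul _ _ _ h2).trans (le_of_eq ?_)
  rw [nsmul_eq_mul, Cl_card]
  push_cast
  ring

/-- products of functions of the classes -/
lemma class_prod (r q N : ℕ) (hq : 0 < q) (ρ : ℕ → Fin r → ℕ) (hρ : ∀ n j, ρ n j < q) (D : ℝ)
    (hD : ∀ v ∈ Cl r q, |(((range N).filter (fun n => ρ n = v)).card : ℝ) - N / (q : ℝ) ^ r| ≤ D)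
    (F : Fin r → ℕ → ℂ) (hF : ∀ i x, ‖F i x‖ ≤ 1) (j : Fin r) :
    ‖∑ n ∈ range N, ∏ i, F i (ρ n i)‖ ≤ (N : ℝ) / q * ‖∑ x ∈ range q, F j x‖ + (q : ℝ) ^ r * D := by
  have hqR : (0 : ℝ) < q := by exact_mod_cast hq
  have h1 := class_sum r q N ρ hρ D hD (fun v => ∏ i, F i (v i)) (fun v => by
    rw [norm_prod]
    exact prod_le_one (fun i _ => norm_nonneg _) (fun i _ => hF i _))
  rw [← prod_univ_sum (fun _ : Fin r => range q) (fun i x => F i x)] at h1
  have h2 : ‖((N / (q : ℝ) ^ r : ℝ) : ℂ) * ∏ i, ∑ x ∈ range q, F i x‖ ≤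
      (N : ℝ) / q * ‖∑ x ∈ range q, F j x‖ := by
    rw [norm_mul, norm_prod, ← mul_prod_erase univ _ (mem_univ j)]
    have h3 : ∏ i ∈ univ.erase j, ‖∑ x ∈ range q, F i x‖ ≤ (q : ℝ) ^ (r - 1) := by
      calc ∏ i ∈ univ.erase j, ‖∑ x ∈ range q, F i x‖ ≤ ∏ _i ∈ univ.erase j, (q : ℝ) := by
            apply prod_le_prod (fun i _ => norm_nonneg _)
            intro i _
            refine (norm_sum_le _ _).trans ?_
            refine (sum_le_card_nsmul _ _ 1 fun x _ => hF i x).trans ?_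
            rw [card_range, nsmul_eq_mul, mul_one]
        _ = (q : ℝ) ^ (r - 1) := by
            rw [prod_const, card_erase_of_mem (mem_univ j), card_univ, Fintype.card_fin]
    have hr : 0 < r := lt_of_le_of_lt (Nat.zero_le _) j.isLt
    have h4 : (q : ℝ) ^ r = q ^ (r - 1) * q := by
      rw [← pow_succ]
      congr 1
      omega
    have h5 : ‖((N / (q : ℝ) ^ r : ℝ) : ℂ)‖ = N / (q : ℝ) ^ r := by
      rw [Complex.norm_real, Real.norm_eq_abs, abs_of_nonneg (by positivity)]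
    rw [h5]
    calc (N : ℝ) / (q : ℝ) ^ r * (‖∑ x ∈ range q, F j x‖ *
          ∏ i ∈ univ.erase j, ‖∑ x ∈ range q, F i x‖) ≤
          (N : ℝ) / (q : ℝ) ^ r * (‖∑ x ∈ range q, F j x‖ * (q : ℝ) ^ (r - 1)) := by gcongr
      _ = _ := by
          rw [h4]
          field_simp
  have h3 := norm_add_le (∑ n ∈ range N, ∏ i, F i (ρ n i) -
    ((N / (q : ℝ) ^ r : ℝ) : ℂ) * ∏ i, ∑ x ∈ range q, F i x)
    (((N / (q : ℝ) ^ r : ℝ) : ℂ) * ∏ i, ∑ x ∈ range q, F i x)
  rw [sub_add_cancel] at h3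
  linarith

/-- counting classes -/
lemma class_count (r q N : ℕ) (hq : 0 < q) (ρ : ℕ → Fin r → ℕ) (hρ : ∀ n j, ρ n j < q) (D : ℝ)
    (hD : ∀ v ∈ Cl r q, |(((range N).filter (fun n => ρ n = v)).card : ℝ) - N / (q : ℝ) ^ r| ≤ D)
    (j : Fin r) (p : ℕ → Prop) [DecidablePred p] :
    (((range N).filter (fun n => p (ρ n j))).card : ℝ) ≤
      (N : ℝ) / q * ((range q).filter p).card + (q : ℝ) ^ r * D := by
  have h1 := class_prod r q N hq ρ hρ D hD
    (fun i x => if i = j then (if p x then 1 else 0) else 1) (fun i x => by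
      split_ifs <;> simp) j
  have h2 : ∀ n, ∏ i, (if i = j then (if p (ρ n i) then (1 : ℂ) else 0) else 1) =
      if p (ρ n j) then 1 else 0 := by
    intro n
    rw [prod_ite_eq' univ j (fun i => if p (ρ n i) then (1 : ℂ) else 0), if_pos (mem_univ j)]
  rw [sum_congr rfl fun n _ => h2 n] at h1
  simp only [if_true] at h1
  rw [← sum_filter, ← sum_filter, sum_const, sum_const, nsmul_eq_mul, nsmul_eq_mul, mul_one, mul_one,
    Complex.norm_natCast, Complex.norm_natCast] at h1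
  exact h1

section

variable {ι : Type} [Fintype ι] [DecidableEq ι]

/-- complete sums -/
lemma full_sum (T : Finset ι) (B : ι → ℕ)
    (hcop : ∀ a ∈ T, ∀ a' ∈ T, a ≠ a' → (B a).Coprime (B a')) (c : ι → ℕ → ℂ)
    (hc1 : ∀ a n, ‖c a n‖ = 1) (a₀ : ι) (ha₀ : a₀ ∈ T) (s k : ℕ) :
    ‖∑ m ∈ range ((∏ a ∈ T, B a) * s),
      ∏ a ∈ T, (c a (m % B a + k) * (starRingEnd ℂ) (c a (m % B a)))‖ ≤
      ((∏ a ∈ T.erase a₀, B a : ℕ) : ℝ) * s *
        ‖∑ m ∈ range (B a₀), c a₀ (m + k) * (starRingEnd ℂ) (c a₀ m)‖ := by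
  have hcc : ∀ i m n, ‖c i m * (starRingEnd ℂ) (c i n)‖ = 1 := by
    intro i m n
    rw [norm_mul, RCLike.norm_conj, hc1, hc1, one_mul]
  set G : ℕ → ℂ := fun m => ∏ a ∈ T, (c a (m % B a + k) * (starRingEnd ℂ) (c a (m % B a))) with hG
  set P' : ℕ := ∏ a ∈ T.erase a₀, B a with hP'
  have hPP : ∏ a ∈ T, B a = B a₀ * P' := (mul_prod_erase T B ha₀).symm
  have hGper : ∀ m d, G ((∏ a ∈ T, B a) * m + d) = G d := by
    intro m d
    rw [hG]
    simp only
    refine prod_congr rfl fun a ha => ?_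
    have hd : B a ∣ ∏ a ∈ T, B a := dvd_prod_of_mem _ ha
    have : ((∏ a ∈ T, B a) * m + d) % B a = d % B a := by
      obtain ⟨t, ht⟩ := hd
      rw [ht, mul_assoc, Nat.mul_add_mod]
    rw [this]
  set F : ℕ → ℂ := fun n => c a₀ (n % B a₀ + k) * (starRingEnd ℂ) (c a₀ (n % B a₀)) with hF
  set R : ℕ → ℂ := fun n => ∏ a ∈ T.erase a₀,
    (c a (n % B a + k) * (starRingEnd ℂ) (c a (n % B a))) with hR
  have hGFR : ∀ n, G n = F n * R n := by
    intro n
    rw [hG, hF, hR]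
    exact (mul_prod_erase T _ ha₀).symm
  have hFper : ∀ n, F (n + B a₀) = F n := by
    intro n
    rw [hF]
    simp only
    rw [Nat.add_mod_right]
  have hRper : ∀ n, R (n + P') = R n := by
    intro n
    rw [hR]
    simp only
    refine prod_congr rfl fun i hi => ?_
    have hd : B i ∣ P' := dvd_prod_of_mem _ hi
    have : (n + P') % B i = n % B i := by
      obtain ⟨t, ht⟩ := hd
      rw [ht, Nat.add_mul_mod_self_left]
    rw [this]
  have hcop' : (B a₀).Coprime P' := by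
    rw [hP']
    apply Nat.Coprime.prod_right
    intro i hi
    exact hcop a₀ ha₀ i (mem_of_mem_erase hi) (ne_of_mem_erase hi).symm
  have hsumF : ∑ n ∈ range (B a₀), F n =
      ∑ m ∈ range (B a₀), c a₀ (m + k) * (starRingEnd ℂ) (c a₀ m) := by
    refine sum_congr rfl fun m hm => ?_
    rw [hF]
    simp only
    rw [Nat.mod_eq_of_lt (mem_range.1 hm)]
  have hR1 : ∀ n, ‖R n‖ ≤ 1 := by
    intro n
    rw [hR]
    simp only
    rw [norm_prod]
    exact prod_le_one (fun i _ => norm_nonneg _) (fun i _ => (hcc i _ _).le)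
  have h1 : ∑ m ∈ range ((∏ a ∈ T, B a) * s), G m =
      s * ∑ d ∈ range (∏ a ∈ T, B a), G d := by
    rw [sum_blocks]
    have : ∀ m ∈ range s, ∑ d ∈ range (∏ a ∈ T, B a), G ((∏ a ∈ T, B a) * m + d) =
        ∑ d ∈ range (∏ a ∈ T, B a), G d := fun m _ => sum_congr rfl fun d _ => hGper m d
    rw [sum_congr rfl this, sum_const, card_range, nsmul_eq_mul]
  have h2 : ∑ d ∈ range (∏ a ∈ T, B a), G d =
      (∑ m ∈ range (B a₀), c a₀ (m + k) * (starRingEnd ℂ) (c a₀ m)) * ∑ n ∈ range P', R n := by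
    rw [hPP, sum_congr rfl fun n _ => hGFR n, crt_sum _ _ hcop' F R hFper hRper, hsumF]
  rw [h1, h2, norm_mul, norm_mul, Complex.norm_natCast]
  have h3 : ‖∑ n ∈ range P', R n‖ ≤ P' := by
    refine (norm_sum_le _ _).trans ?_
    refine (sum_le_card_nsmul _ _ 1 fun n _ => hR1 n).trans ?_
    rw [card_range, nsmul_eq_mul, mul_one]
  calc (s : ℝ) * (‖∑ m ∈ range (B a₀), c a₀ (m + k) * (starRingEnd ℂ) (c a₀ m)‖ *
        ‖∑ n ∈ range P', R n‖) ≤
        (s : ℝ) * (‖∑ m ∈ range (B a₀), c a₀ (m + k) * (starRingEnd ℂ) (c a₀ m)‖ * P') := by gcongr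
    _ = _ := by ring

end

/-- the integer part of the multiple -/
lemma floor_cls (R B : ℕ) (hR : 0 < R) (y : ℝ) :
    (⌊(R : ℝ) * y⌋₊ % (R * B)) / R = ⌊y⌋₊ % B ∧
    (⌊(R : ℝ) * y⌋₊ % (R * B)) % R = ⌊(R : ℝ) * y⌋₊ % R := by
  have hRR : (0 : ℝ) < R := by exact_mod_cast hR
  refine ⟨?_, ?_⟩
  · rw [Nat.mod_mul_right_div_self]
    congr 1
    rw [← Nat.floor_div_natCast]
    congr 1
    field_simp
  · exact Nat.mod_mod_of_dvd _ (Dvd.intro B rfl)

/-- the integer part of a sum, seen in the class -/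
lemma floor_inc (R : ℕ) (hR : 0 < R) (y w : ℝ) (hy : 0 ≤ y) (hw : 0 ≤ w)
    (hne : ⌊(R : ℝ) * y⌋₊ % R ≠ ⌊(R : ℝ) * (1 - Int.fract w)⌋₊) :
    ⌊y + w⌋₊ = ⌊y⌋₊ + (⌊w⌋₊ + if ⌊(R : ℝ) * y⌋₊ % R < ⌊(R : ℝ) * (1 - Int.fract w)⌋₊ then 0 else 1) := by
  have hRR : (0 : ℝ) < R := by exact_mod_cast hR
  have hfw0 := Int.fract_nonneg w
  have hfw1 := Int.fract_lt_one w
  have hfy0 := Int.fract_nonneg y
  have hfy1 := Int.fract_lt_one y
  have hyf : (⌊y⌋₊ : ℝ) + Int.fract y = y := by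
    rw [natCast_floor_eq_intCast_floor hy]
    exact Int.floor_add_fract y
  have hwf : (⌊w⌋₊ : ℝ) + Int.fract w = w := by
    rw [natCast_floor_eq_intCast_floor hw]
    exact Int.floor_add_fract w
  set t : ℕ := ⌊(R : ℝ) * y⌋₊ % R with ht
  set s : ℕ := ⌊(R : ℝ) * (1 - Int.fract w)⌋₊ with hs
  have h1 : ⌊(R : ℝ) * y⌋₊ = R * ⌊y⌋₊ + t := by
    have h2 : ⌊(R : ℝ) * y⌋₊ / R = ⌊y⌋₊ := by
      rw [← Nat.floor_div_natCast]
      congr 1
      field_simp
    rw [← h2, ht]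
    exact (Nat.div_add_mod _ _).symm
  have h2 : (R : ℝ) * ⌊y⌋₊ + t ≤ R * y := by
    have := Nat.floor_le (show 0 ≤ (R : ℝ) * y by positivity)
    rw [h1] at this
    push_cast at this
    exact this
  have h3 : (R : ℝ) * y < R * ⌊y⌋₊ + t + 1 := by
    have := Nat.lt_floor_add_one ((R : ℝ) * y)
    rw [h1] at this
    push_cast at this
    exact this
  have h4 : (t : ℝ) ≤ R * Int.fract y := by
    have : (R : ℝ) * y = R * ⌊y⌋₊ + R * Int.fract y := by rw [← mul_add, hyf]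
    linarith
  have h5 : (R : ℝ) * Int.fract y < t + 1 := by
    have : (R : ℝ) * y = R * ⌊y⌋₊ + R * Int.fract y := by rw [← mul_add, hyf]
    linarith
  have hs0 : (0 : ℝ) ≤ R * (1 - Int.fract w) := by
    apply mul_nonneg hRR.le
    linarith
  have hs1 : (s : ℝ) ≤ R * (1 - Int.fract w) := Nat.floor_le hs0
  have hs2 : (R : ℝ) * (1 - Int.fract w) < s + 1 := Nat.lt_floor_add_one _
  split_ifs with hts
  · have h6 : (t : ℝ) + 1 ≤ s := by exact_mod_cast hts
    have h7 : Int.fract y < 1 - Int.fract w := by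
      have : (R : ℝ) * Int.fract y < R * (1 - Int.fract w) := by linarith
      exact lt_of_mul_lt_mul_left this hRR.le
    rw [Nat.floor_eq_iff (by positivity)]
    push_cast
    constructor <;> linarith
  · have h6 : (s : ℝ) + 1 ≤ t := by
      have : s < t := by omega
      exact_mod_cast this
    have h7 : 1 - Int.fract w < Int.fract y := by
      have : (R : ℝ) * (1 - Int.fract w) < R * Int.fract y := by linarith
      exact lt_of_mul_lt_mul_left this hRR.le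
    rw [Nat.floor_eq_iff (by positivity)]
    push_cast
    constructor <;> linarith

section

variable {ι : Type} [Fintype ι] [DecidableEq ι]

/-- the correlations of a product along Beatty sequences -/
lemma corr_be {r : ℕ} (fo : ι → Fin r) (B : ι → ℕ) (hB : ∀ a, 0 < B a)
    (hcop : ∀ a a', a ≠ a' → fo a = fo a' → (B a).Coprime (B a')) (c : ι → ℕ → ℂ)
    (hc1 : ∀ a n, ‖c a n‖ = 1)
    (hs : ∀ a, ∀ m n : ℕ, n < B a → c a (B a * m + n) = c a m * c a n) (a₀ : ι)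
    (y : ℕ → Fin r → ℝ) (hy : ∀ n j, 0 ≤ y n j) (l : ℕ) (w : Fin r → ℝ) (hw : ∀ j, 0 ≤ w j)
    (hyw : ∀ n j, y (n + l) j = y n j + w j) (R N : ℕ) (hR : 0 < R) (D : ℝ)
    (hD : ∀ v ∈ Cl r (R * ∏ a, B a), |(((range N).filter
      (fun n => (fun j => ⌊(R : ℝ) * y n j⌋₊ % (R * ∏ a, B a)) = v)).card : ℝ) -
        N / ((R * ∏ a, B a : ℕ) : ℝ) ^ r| ≤ D) :
    ‖∑ n ∈ range N, ∏ a, (c a ⌊y (n + l) (fo a)⌋₊ * (starRingEnd ℂ) (c a ⌊y n (fo a)⌋₊))‖ ≤
      (N : ℝ) / B a₀ *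
        (‖∑ m ∈ range (B a₀), c a₀ (m + ⌊w (fo a₀)⌋₊) * (starRingEnd ℂ) (c a₀ m)‖ +
          ‖∑ m ∈ range (B a₀), c a₀ (m + (⌊w (fo a₀)⌋₊ + 1)) * (starRingEnd ℂ) (c a₀ m)‖) +
      ((R * ∏ a, B a : ℕ) : ℝ) ^ r * D * (1 + 2 * r + 2 * Fintype.card ι) + 2 * (r * ((N : ℝ) / R)) +
      2 * ∑ a, (N : ℝ) * (⌊w (fo a)⌋₊ + 1) / B a := by
  classical
  set Bt : ℕ := ∏ a, B a with hBt
  have hBt0 : 0 < Bt := prod_pos fun a _ => hB a
  set q : ℕ := R * Bt with hq
  have hq0 : 0 < q := Nat.mul_pos hR hBt0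
  have hRR : (0 : ℝ) < R := by exact_mod_cast hR
  have hqR : (0 : ℝ) < q := by exact_mod_cast hq0
  have hBtR : (0 : ℝ) < Bt := by exact_mod_cast hBt0
  set ρ : ℕ → Fin r → ℕ := fun n j => ⌊(R : ℝ) * y n j⌋₊ % q with hρ
  have hρq : ∀ n j, ρ n j < q := fun n j => Nat.mod_lt _ hq0
  set σ : Fin r → ℕ := fun j => ⌊(R : ℝ) * (1 - Int.fract (w j))⌋₊ with hσ
  set κ : Fin r → ℕ → ℕ := fun j t => ⌊w j⌋₊ + if t < σ j then 0 else 1 with hκ
  have hκ1 : ∀ j t, κ j t ≤ ⌊w j⌋₊ + 1 := by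
    intro j t
    rw [hκ]
    simp only
    split_ifs <;> omega
  set g : ι → ℕ → ℂ := fun a x =>
    c a (x / R % B a + κ (fo a) (x % R)) * (starRingEnd ℂ) (c a (x / R % B a)) with hg
  have hcc : ∀ i m n, ‖c i m * (starRingEnd ℂ) (c i n)‖ = 1 := by
    intro i m n
    rw [norm_mul, RCLike.norm_conj, hc1, hc1, one_mul]
  have hdvd : ∀ a, B a ∣ Bt := fun a => dvd_prod_of_mem _ (mem_univ a)
  -- the exceptional points
  have hgood : ∀ n, (∀ j, ρ n j % R ≠ σ j) → (∀ a, ρ n (fo a) / R % B a + (⌊w (fo a)⌋₊ + 1) < B a) →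
      ∏ a, (c a ⌊y (n + l) (fo a)⌋₊ * (starRingEnd ℂ) (c a ⌊y n (fo a)⌋₊)) =
        ∏ a, g a (ρ n (fo a)) := by
    intro n h1 h2
    refine prod_congr rfl fun a _ => ?_
    obtain ⟨e1, e2⟩ := floor_cls R Bt hR (y n (fo a))
    have e3 : ρ n (fo a) / R % B a = ⌊y n (fo a)⌋₊ % B a := by
      rw [hρ]
      simp only
      rw [hq, e1]
      exact Nat.mod_mod_of_dvd _ (hdvd a)
    have e4 : ρ n (fo a) % R = ⌊(R : ℝ) * y n (fo a)⌋₊ % R := by
      rw [hρ]
      simp only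
      rw [hq, e2]
    have e5 : ⌊y (n + l) (fo a)⌋₊ = ⌊y n (fo a)⌋₊ + κ (fo a) (ρ n (fo a) % R) := by
      rw [hyw, floor_inc R hR _ _ (hy n _) (hw _) (by rw [← e4]; exact h1 _), hκ]
      simp only
      rw [e4]
    rw [e5, hg]
    simp only
    rw [e3]
    apply no_carry (B a) (c a) (hc1 a) (hs a)
    have h3 := h2 a
    rw [e3] at h3
    have h4 := hκ1 (fo a) (ρ n (fo a) % R)
    omega
  have hnorm2 : ∀ n, ‖∏ a, (c a ⌊y (n + l) (fo a)⌋₊ * (starRingEnd ℂ) (c a ⌊y n (fo a)⌋₊)) -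
      ∏ a, g a (ρ n (fo a))‖ ≤ 2 := fun n =>
    prod_diff_le univ _ _ (fun a _ => (hcc a _ _).le) (fun a _ => (hcc a _ _).le)
  have hX : ∀ j, (((range N).filter (fun n => ρ n j % R = σ j)).card : ℝ) ≤
      (N : ℝ) / R + (q : ℝ) ^ r * D := by
    intro j
    have h1 := class_count r q N hq0 ρ hρq D hD j (fun x => x % R = σ j)
    have h2 : ((range q).filter (fun x => x % R = σ j)).card ≤ Bt := by
      calc ((range q).filter (fun x => x % R = σ j)).card ≤ (range Bt).card := by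
            apply card_le_card_of_injOn (fun x => x / R)
            · intro x hx
              have hx' : x < q ∧ x % R = σ j := by simpa using hx
              simp only [coe_range, Set.mem_Iio]
              rw [Nat.div_lt_iff_lt_mul hR, mul_comm]
              exact hx'.1
            · intro x hx x' hx' h
              have h3 : x < q ∧ x % R = σ j := by simpa using hx
              have h4 : x' < q ∧ x' % R = σ j := by simpa using hx'
              simp only at h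
              rw [← Nat.div_add_mod x R, ← Nat.div_add_mod x' R, h, h3.2, h4.2]
        _ = Bt := card_range _
    refine h1.trans ?_
    gcongr ?_ + _
    calc (N : ℝ) / q * ((range q).filter (fun x => x % R = σ j)).card ≤ (N : ℝ) / q * Bt := by
          gcongr
      _ = (N : ℝ) / R := by
          rw [hq]; push_cast; field_simp
  have hY : ∀ a, (((range N).filter (fun n => B a ≤ ρ n (fo a) / R % B a + (⌊w (fo a)⌋₊ + 1))).card : ℝ) ≤
      (N : ℝ) * (⌊w (fo a)⌋₊ + 1) / B a + (q : ℝ) ^ r * D := by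
    intro a
    have hBa : (0 : ℝ) < B a := by exact_mod_cast hB a
    have h1 := class_count r q N hq0 ρ hρq D hD (fo a)
      (fun x => B a ≤ x / R % B a + (⌊w (fo a)⌋₊ + 1))
    obtain ⟨s', hs'⟩ := hdvd a
    have h2 : ((range q).filter (fun x => B a ≤ x / R % B a + (⌊w (fo a)⌋₊ + 1))).card ≤
        (R * s') * (⌊w (fo a)⌋₊ + 1) := by
      calc _ ≤ (((range R) ×ˢ (range s')) ×ˢ (Ico (B a - (⌊w (fo a)⌋₊ + 1)) (B a))).card := by
            apply card_le_card_of_injOn (fun x => ((x % R, x / R / B a), x / R % B a))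
            · intro x hx
              have hx' : x < q ∧ B a ≤ x / R % B a + (⌊w (fo a)⌋₊ + 1) := by simpa using hx
              simp only [coe_product, Set.mem_prod, coe_range, Set.mem_Iio, coe_Ico, Set.mem_Ico]
              refine ⟨⟨Nat.mod_lt _ hR, ?_⟩, ?_, Nat.mod_lt _ (hB a)⟩
              · rw [Nat.div_lt_iff_lt_mul (hB a), Nat.div_lt_iff_lt_mul hR]
                calc x < q := hx'.1
                  _ = s' * B a * R := by rw [hq, hs']; ring
              · omega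
            · intro x _ x' _ h
              simp only [Prod.mk.injEq] at h
              rw [← Nat.div_add_mod x R, ← Nat.div_add_mod x' R, h.1.1,
                ← Nat.div_add_mod (x / R) (B a), ← Nat.div_add_mod (x' / R) (B a), h.1.2, h.2]
        _ = (R * s') * (B a - (B a - (⌊w (fo a)⌋₊ + 1))) := by
            rw [card_product, card_product, card_range, card_range, Nat.card_Ico]
        _ ≤ _ := Nat.mul_le_mul_left _ (by omega)
    refine h1.trans ?_
    gcongr ?_ + _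
    have h3 : (((range q).filter (fun x => B a ≤ x / R % B a + (⌊w (fo a)⌋₊ + 1))).card : ℝ) ≤
        (R * s') * (⌊w (fo a)⌋₊ + 1) := by exact_mod_cast h2
    have hs0 : (0 : ℝ) < s' := by
      have : 0 < s' := by
        rcases Nat.eq_zero_or_pos s' with h | h
        · rw [h, mul_zero] at hs'; omega
        · exact h
      exact_mod_cast this
    calc (N : ℝ) / q * ((range q).filter (fun x => B a ≤ x / R % B a + (⌊w (fo a)⌋₊ + 1))).card ≤
          (N : ℝ) / q * ((R * s') * (⌊w (fo a)⌋₊ + 1)) := by gcongr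
      _ = _ := by
          rw [hq, hs']; push_cast; field_simp
  -- the difference
  have hdiff : ‖∑ n ∈ range N, ∏ a, (c a ⌊y (n + l) (fo a)⌋₊ *
      (starRingEnd ℂ) (c a ⌊y n (fo a)⌋₊)) - ∑ n ∈ range N, ∏ a, g a (ρ n (fo a))‖ ≤
      2 * (r * ((N : ℝ) / R)) + 2 * ∑ a, (N : ℝ) * (⌊w (fo a)⌋₊ + 1) / B a +
        (q : ℝ) ^ r * D * (2 * r + 2 * Fintype.card ι) := by
    rw [← sum_sub_distrib]
    refine (norm_sum_le _ _).trans ?_
    have h1 : ∀ n ∈ range N, ‖∏ a, (c a ⌊y (n + l) (fo a)⌋₊ *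
        (starRingEnd ℂ) (c a ⌊y n (fo a)⌋₊)) - ∏ a, g a (ρ n (fo a))‖ ≤
        ∑ j, (if ρ n j % R = σ j then (2 : ℝ) else 0) +
          ∑ a, (if B a ≤ ρ n (fo a) / R % B a + (⌊w (fo a)⌋₊ + 1) then (2 : ℝ) else 0) := by
      intro n _
      have hs1 : 0 ≤ ∑ j, (if ρ n j % R = σ j then (2 : ℝ) else 0) :=
        sum_nonneg fun j _ => by positivity
      have hs2 : 0 ≤ ∑ a, (if B a ≤ ρ n (fo a) / R % B a + (⌊w (fo a)⌋₊ + 1) then (2 : ℝ) else 0) :=
        sum_nonneg fun a _ => by positivity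
      by_cases hA : ∃ j, ρ n j % R = σ j
      · obtain ⟨j, hj⟩ := hA
        have h2 : (2 : ℝ) ≤ ∑ j, (if ρ n j % R = σ j then (2 : ℝ) else 0) := by
          calc (2 : ℝ) = if ρ n j % R = σ j then (2 : ℝ) else 0 := by rw [if_pos hj]
            _ ≤ _ := single_le_sum (f := fun j => if ρ n j % R = σ j then (2 : ℝ) else 0)
                (fun j _ => by positivity) (mem_univ j)
        linarith [hnorm2 n]
      · push Not at hA
        by_cases hC : ∃ a, B a ≤ ρ n (fo a) / R % B a + (⌊w (fo a)⌋₊ + 1)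
        · obtain ⟨a, ha⟩ := hC
          have h2 : (2 : ℝ) ≤
              ∑ a, (if B a ≤ ρ n (fo a) / R % B a + (⌊w (fo a)⌋₊ + 1) then (2 : ℝ) else 0) := by
            calc (2 : ℝ) = if B a ≤ ρ n (fo a) / R % B a + (⌊w (fo a)⌋₊ + 1) then (2 : ℝ) else 0 := by
                  rw [if_pos ha]
              _ ≤ _ := single_le_sum
                  (f := fun a => if B a ≤ ρ n (fo a) / R % B a + (⌊w (fo a)⌋₊ + 1) then (2 : ℝ) else 0)
                  (fun a _ => by positivity) (mem_univ a)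
          linarith [hnorm2 n]
        · push Not at hC
          rw [hgood n hA hC, sub_self, norm_zero]
          linarith
    refine (sum_le_sum h1).trans ?_
    rw [sum_add_distrib, sum_comm, sum_comm (s := range N) (t := (univ : Finset ι))]
    have h2 : ∑ j, ∑ n ∈ range N, (if ρ n j % R = σ j then (2 : ℝ) else 0) ≤
        ∑ _j : Fin r, 2 * ((N : ℝ) / R + (q : ℝ) ^ r * D) := by
      refine sum_le_sum fun j _ => ?_
      rw [← sum_filter, sum_const, nsmul_eq_mul, mul_comm]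
      exact mul_le_mul_of_nonneg_left (hX j) (by norm_num)
    have h3 : ∑ a, ∑ n ∈ range N,
        (if B a ≤ ρ n (fo a) / R % B a + (⌊w (fo a)⌋₊ + 1) then (2 : ℝ) else 0) ≤
        ∑ a, 2 * ((N : ℝ) * (⌊w (fo a)⌋₊ + 1) / B a + (q : ℝ) ^ r * D) := by
      refine sum_le_sum fun a _ => ?_
      rw [← sum_filter, sum_const, nsmul_eq_mul, mul_comm]
      exact mul_le_mul_of_nonneg_left (hY a) (by norm_num)
    rw [sum_const, card_univ, Fintype.card_fin, nsmul_eq_mul] at h2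
    rw [← mul_sum, sum_add_distrib, sum_const, card_univ, nsmul_eq_mul] at h3
    calc _ ≤ (r : ℝ) * (2 * ((N : ℝ) / R + (q : ℝ) ^ r * D)) +
          2 * (∑ a, (N : ℝ) * (⌊w (fo a)⌋₊ + 1) / B a + Fintype.card ι * ((q : ℝ) ^ r * D)) :=
          add_le_add h2 h3
      _ = _ := by ring
  -- the main term
  set F : Fin r → ℕ → ℂ := fun j x => ∏ a ∈ univ.filter (fun a => fo a = j), g a x with hF
  have hF1 : ∀ j x, ‖F j x‖ ≤ 1 := by
    intro j x
    rw [hF]
    simp only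
    rw [norm_prod]
    exact prod_le_one (fun i _ => norm_nonneg _) (fun i _ => (hcc i _ _).le)
  have hFg : ∀ n, ∏ a, g a (ρ n (fo a)) = ∏ j, F j (ρ n j) := by
    intro n
    rw [← prod_fiberwise (s := univ) (g := fo)]
    refine prod_congr rfl fun j _ => ?_
    rw [hF]
    simp only
    refine prod_congr rfl fun a ha => ?_
    rw [(mem_filter.1 ha).2]
  have hmain := class_prod r q N hq0 ρ hρq D hD F hF1 (fo a₀)
  have hsumF : ‖∑ x ∈ range q, F (fo a₀) x‖ ≤ (R * Bt : ℝ) / B a₀ *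
      (‖∑ m ∈ range (B a₀), c a₀ (m + ⌊w (fo a₀)⌋₊) * (starRingEnd ℂ) (c a₀ m)‖ +
          ‖∑ m ∈ range (B a₀), c a₀ (m + (⌊w (fo a₀)⌋₊ + 1)) * (starRingEnd ℂ) (c a₀ m)‖) := by
    set j₀ := fo a₀ with hj₀
    set T : Finset ι := univ.filter (fun a => fo a = j₀) with hT
    have ha₀T : a₀ ∈ T := by rw [hT, mem_filter]; exact ⟨mem_univ _, rfl⟩
    obtain ⟨s', hs'⟩ : ∏ a ∈ T, B a ∣ Bt := prod_dvd_prod_of_subset _ _ _ (subset_univ T)
    rw [hq, sum_blocks, sum_comm]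
    refine (norm_sum_le _ _).trans ?_
    have h1 : ∀ t ∈ range R, ‖∑ m ∈ range Bt, F j₀ (R * m + t)‖ ≤ (Bt : ℝ) / B a₀ *
        (‖∑ m ∈ range (B a₀), c a₀ (m + ⌊w j₀⌋₊) * (starRingEnd ℂ) (c a₀ m)‖ +
          ‖∑ m ∈ range (B a₀), c a₀ (m + (⌊w j₀⌋₊ + 1)) * (starRingEnd ℂ) (c a₀ m)‖) := by
      intro t ht
      have ht' := mem_range.1 ht
      have h2 : ∀ m, F j₀ (R * m + t) =
          ∏ a ∈ T, (c a (m % B a + κ j₀ t) * (starRingEnd ℂ) (c a (m % B a))) := by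
        intro m
        rw [hF]
        simp only
        refine prod_congr rfl fun a ha => ?_
        have e1 : (R * m + t) / R = m := by
          rw [Nat.mul_add_div hR, Nat.div_eq_of_lt ht', add_zero]
        have e2 : (R * m + t) % R = t := by
          rw [Nat.mul_add_mod, Nat.mod_eq_of_lt ht']
        rw [hg]
        simp only
        rw [e1, e2, (mem_filter.1 ha).2]
      rw [sum_congr rfl fun m _ => h2 m, hs']
      refine (full_sum T B (fun a ha a' ha' hne => hcop a a' hne (by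
        rw [(mem_filter.1 ha).2, (mem_filter.1 ha').2])) c hc1 a₀ ha₀T s' (κ j₀ t)).trans ?_
      have hB0 : (0 : ℝ) < B a₀ := by exact_mod_cast hB a₀
      have e3 : ((∏ a ∈ T.erase a₀, B a : ℕ) : ℝ) * s' = (((∏ a ∈ T, B a) * s' : ℕ) : ℝ) / B a₀ := by
        rw [← mul_prod_erase T B ha₀T]
        push_cast
        field_simp
      rw [e3]
      apply mul_le_mul_of_nonneg_left _ (by positivity)
      rw [hκ]
      simp only
      split_ifs
      · rw [add_zero]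
        linarith [norm_nonneg (∑ m ∈ range (B a₀), c a₀ (m + (⌊w j₀⌋₊ + 1)) * (starRingEnd ℂ) (c a₀ m))]
      · linarith [norm_nonneg (∑ m ∈ range (B a₀), c a₀ (m + ⌊w j₀⌋₊) * (starRingEnd ℂ) (c a₀ m))]
    refine (sum_le_card_nsmul _ _ _ h1).trans (le_of_eq ?_)
    rw [card_range, nsmul_eq_mul]
    ring
  have h2 : ‖∑ n ∈ range N, ∏ a, g a (ρ n (fo a))‖ ≤ (N : ℝ) / B a₀ *
      (‖∑ m ∈ range (B a₀), c a₀ (m + ⌊w (fo a₀)⌋₊) * (starRingEnd ℂ) (c a₀ m)‖ +
          ‖∑ m ∈ range (B a₀), c a₀ (m + (⌊w (fo a₀)⌋₊ + 1)) * (starRingEnd ℂ) (c a₀ m)‖) +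
      (q : ℝ) ^ r * D := by
    rw [sum_congr rfl fun n _ => hFg n]
    refine hmain.trans ?_
    gcongr ?_ + _
    calc (N : ℝ) / q * ‖∑ x ∈ range q, F (fo a₀) x‖ ≤ (N : ℝ) / q * ((R * Bt : ℝ) / B a₀ *
          (‖∑ m ∈ range (B a₀), c a₀ (m + ⌊w (fo a₀)⌋₊) * (starRingEnd ℂ) (c a₀ m)‖ +
          ‖∑ m ∈ range (B a₀), c a₀ (m + (⌊w (fo a₀)⌋₊ + 1)) * (starRingEnd ℂ) (c a₀ m)‖)) := by gcongr
      _ = _ := by
          rw [hq]; push_cast; field_simp
  have h3 := norm_add_le (∑ n ∈ range N, ∏ a, (c a ⌊y (n + l) (fo a)⌋₊ *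
      (starRingEnd ℂ) (c a ⌊y n (fo a)⌋₊)) - ∑ n ∈ range N, ∏ a, g a (ρ n (fo a)))
      (∑ n ∈ range N, ∏ a, g a (ρ n (fo a)))
  rw [sub_add_cancel] at h3
  refine h3.trans ?_
  refine (add_le_add hdiff h2).trans (le_of_eq ?_)
  ring

end

end Pool.Agent.U602.BE
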