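import Pool.Agent.U602.BE.Vdc
import Pool.Agent.U602.MB.Sum
import Pool.Agent.U602.AU.Bound2

set_option autoImplicit false
set_option linter.unusedSectionVars false

/-! Exponential sums of products of strongly multiplicative functions along Beatty sequences. -/

namespace Pool.Agent.U602.BE

open Finset Filter
open Pool.Agent.H469R2.NK (e norm_e e_add e_zero conj_e)
open Pool.Agent.TH915.PW (Fd T_bound)
open Pool.Agent.W147.PS (ev_pow)
open Pool.Agent.U602.MB (c_split pw_comm)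
open Pool.Agent.U602.AU (geom_real)
open Pool.Agent.Y961.JR (discJ)

/-- the classes are equidistributed -/
lemma disc_be {r : ℕ} (hr : 1 ≤ r) (α β : Fin r → ℝ) (hα : ∀ j, 0 < α j) (c τ : ℝ) (hc : 0 < c)
    (hdio : ∀ (H : ℕ) (h : Fin r → ℤ), h ≠ 0 → (∀ j, |h j| ≤ H) → ∀ m : ℤ,
      c * (H : ℝ) ^ (-τ) ≤ |∑ j, (h j : ℝ) * α j - m|)
    (A : ℕ) (hA : ∀ j, 0 ≤ α j * A + β j) (R Bt N K₀ : ℕ) (hR : 0 < R) (hBt : 0 < Bt)
    (hK₀ : 3 * (R * Bt) ≤ K₀) :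
    ∀ N' ≤ N, ∀ v ∈ Cl r (R * Bt), |(((range N').filter
      (fun n : ℕ => (fun j => ⌊(R : ℝ) * (α j * (A + n : ℕ) + β j)⌋₊ % (R * Bt)) = v)).card : ℝ) -
        N' / ((R * Bt : ℕ) : ℝ) ^ r| ≤ ((R * Bt : ℕ) : ℝ) ^ r * ((3 * r + 4) * N / K₀ +
          (K₀ : ℝ) ^ (3 * r) * (2 * Bt * ((K₀ : ℝ) ^ 3) ^ τ / c)) := by
  intro N' hN' v hv
  set q : ℕ := R * Bt with hq
  have hq0 : 0 < q := Nat.mul_pos hR hBt
  have hK1 : 1 ≤ K₀ := by omega
  have hK0R : (0 : ℝ) < K₀ := by exact_mod_cast hK1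
  have hBtR : (0 : ℝ) < Bt := by exact_mod_cast hBt
  have hRR : (0 : ℝ) < R := by exact_mod_cast hR
  have hqR : (0 : ℝ) < q := by exact_mod_cast hq0
  have hvq : ∀ j, v j < q := fun j => by
    have := Fintype.mem_piFinset.1 hv j
    exact mem_range.1 this
  have h1 := discJ hr (range N') (fun (n : ℕ) j => (R : ℝ) * (α j * (A + n : ℕ) + β j)) K₀ q hK1 hq0
    hK₀ (2 * Bt * ((K₀ : ℝ) ^ 3) ^ τ / c) (by positivity) (by
      intro h hh hhK
      have e0 : ∀ n : ℕ, ∑ j, (h j : ℝ) * ((R : ℝ) * (α j * (A + n : ℕ) + β j) / q) =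
          ∑ j, (h j : ℝ) * ((α j * A + β j) / Bt) + n * ((∑ j, (h j : ℝ) * α j) / Bt) := by
        intro n
        rw [sum_div, mul_sum, ← sum_add_distrib]
        refine sum_congr rfl fun j _ => ?_
        rw [hq]
        push_cast
        field_simp
        ring
      have e1 : ∑ n ∈ range N', e (∑ j, (h j : ℝ) * ((R : ℝ) * (α j * (A + n : ℕ) + β j) / q)) =
          e (∑ j, (h j : ℝ) * ((α j * A + β j) / Bt)) *
            ∑ n ∈ range N', e (n * ((∑ j, (h j : ℝ) * α j) / Bt)) := by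
        rw [mul_sum]
        refine sum_congr rfl fun n _ => ?_
        rw [e0, e_add]
      rw [e1, norm_mul, norm_e, one_mul]
      have hK3 : ((K₀ ^ 3 : ℕ) : ℝ) = (K₀ : ℝ) ^ 3 := by push_cast; ring
      refine (geom_real _ (c * ((K₀ : ℝ) ^ 3) ^ (-τ) / Bt) (by positivity) (by
        intro m
        have h2 := hdio (K₀ ^ 3) h hh (fun j => by
          have h3 := hhK j
          rw [Int.abs_eq_natAbs]
          exact_mod_cast h3.le) (m * Bt)
        rw [hK3] at h2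
        have h4 : (∑ j, (h j : ℝ) * α j) / Bt - m =
            (∑ j, (h j : ℝ) * α j - ((m * Bt : ℤ) : ℝ)) / Bt := by
          push_cast
          field_simp
        rw [h4, abs_div, abs_of_pos hBtR]
        gcongr) N').trans (le_of_eq ?_)
      rw [Real.rpow_neg (by positivity)]
      field_simp) (fun j => (v j : ℤ))
  have h2 : (range N').filter (fun n : ℕ => ∀ j, (q : ℤ) ∣ ⌊(R : ℝ) * (α j * (A + n : ℕ) + β j)⌋ -
      (v j : ℤ)) = (range N').filter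
      (fun n : ℕ => (fun j => ⌊(R : ℝ) * (α j * (A + n : ℕ) + β j)⌋₊ % q) = v) := by
    apply filter_congr
    intro n _
    rw [funext_iff]
    refine forall_congr' fun j => ?_
    have hx : 0 ≤ (R : ℝ) * (α j * (A + n : ℕ) + β j) := by
      apply mul_nonneg hRR.le
      push_cast
      have h1 := hA j
      have h2 : 0 ≤ α j * n := mul_nonneg (hα j).le (Nat.cast_nonneg n)
      linarith
    have hfl : ⌊(R : ℝ) * (α j * (A + n : ℕ) + β j)⌋ =
        ((⌊(R : ℝ) * (α j * (A + n : ℕ) + β j)⌋₊ : ℕ) : ℤ) := (Int.natCast_floor_eq_floor hx).symm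
    rw [hfl]
    constructor
    · intro h3
      have h4 : (v j : ℤ) ≡ (⌊(R : ℝ) * (α j * (A + n : ℕ) + β j)⌋₊ : ℕ) [ZMOD q] :=
        (Int.modEq_iff_dvd).2 h3
      have h5 : v j ≡ ⌊(R : ℝ) * (α j * (A + n : ℕ) + β j)⌋₊ [MOD q] := Int.natCast_modEq_iff.1 h4
      have h6 : v j % q = ⌊(R : ℝ) * (α j * (A + n : ℕ) + β j)⌋₊ % q := h5
      rw [Nat.mod_eq_of_lt (hvq j)] at h6
      exact h6.symm
    · intro h3
      have h5 : v j ≡ ⌊(R : ℝ) * (α j * (A + n : ℕ) + β j)⌋₊ [MOD q] := by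
        have : v j % q = ⌊(R : ℝ) * (α j * (A + n : ℕ) + β j)⌋₊ % q := by
          rw [Nat.mod_eq_of_lt (hvq j), h3]
        exact this
      exact (Int.modEq_iff_dvd).1 (Int.natCast_modEq_iff.2 h5)
  rw [h2, card_range] at h1
  refine h1.trans ?_
  have hN : (N' : ℝ) ≤ N := by exact_mod_cast hN'
  gcongr

/-- collecting the terms -/
lemma comb_be (N K T u2 u3 u4 S2 Z x1 x3 x4 : ℝ) (hN : 0 ≤ N) (hK : 0 ≤ K) (hKN : K ≤ N) (hZ : 1 ≤ Z)
    (hx1 : 0 ≤ x1) (hx3 : 0 ≤ x3) (hx4 : 0 ≤ x4)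
    (hmain : K * S2 ≤ (N + K) * (N + 2 * (T + K * (u2 + u3 + u4))))
    (t1 : T ≤ N * (x1 * Z)) (t2 : K * u2 ≤ N * Z) (t3 : K * u3 ≤ N * (x3 * Z))
    (t4 : K * u4 ≤ N * (x4 * Z)) :
    K * S2 ≤ (2 * N) * (N * ((3 + 2 * x1 + 2 * x3 + 2 * x4) * Z)) := by
  refine hmain.trans ?_
  have h1 : N + K ≤ 2 * N := by linarith
  have h3 : N * 1 ≤ N * Z := mul_le_mul_of_nonneg_left hZ hN
  have h2 : N + 2 * (T + K * (u2 + u3 + u4)) ≤ N * ((3 + 2 * x1 + 2 * x3 + 2 * x4) * Z) := by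
    have h4 : N * ((3 + 2 * x1 + 2 * x3 + 2 * x4) * Z) =
        N * Z + 2 * (N * (x1 * Z) + (N * Z + N * (x3 * Z) + N * (x4 * Z))) := by ring
    rw [h4, mul_add K, mul_add K]
    linarith
  have h5 : 0 ≤ N * ((3 + 2 * x1 + 2 * x3 + 2 * x4) * Z) := by positivity
  calc _ ≤ (N + K) * (N * ((3 + 2 * x1 + 2 * x3 + 2 * x4) * Z)) :=
        mul_le_mul_of_nonneg_left h2 (by linarith)
    _ ≤ _ := mul_le_mul_of_nonneg_right h1 h5

/-- the last step -/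
lemma last_be (N K Y S C c P : ℝ) (hN1 : 1 ≤ N) (hY0 : 0 < Y) (hP0 : 0 < P)
    (hYdef : Y = N ^ (1 / P)) (hS0 : 0 ≤ S) (hK2 : Y ^ (1 - c) / 2 ≤ K)
    (hbig : K * S ^ 2 ≤ (2 * N) * (N * (C * Y ^ (1 - 2 * c)))) (hYD : 4 * C ≤ Y ^ (c / 2)) :
    S ≤ N ^ (1 - c / (4 * P)) := by
  have hN0 : 0 < N := by linarith
  have hS2 : S ^ 2 ≤ N ^ 2 * (4 * C * Y ^ (-c)) := by
    have h1 : Y ^ (1 - c) / 2 * S ^ 2 ≤ (2 * N) * (N * (C * Y ^ (1 - 2 * c))) := by
      refine le_trans ?_ hbig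
      gcongr
    have h2 : Y ^ (1 - c) * S ^ 2 ≤ Y ^ (1 - c) * (N ^ 2 * (4 * C * Y ^ (-c))) := by
      have h3 : Y ^ (1 - c) * Y ^ (-c) = Y ^ (1 - 2 * c) := by
        rw [← Real.rpow_add hY0]
        congr 1
        ring
      calc Y ^ (1 - c) * S ^ 2 = 2 * (Y ^ (1 - c) / 2 * S ^ 2) := by ring
        _ ≤ 2 * ((2 * N) * (N * (C * Y ^ (1 - 2 * c)))) := by linarith
        _ = N ^ 2 * (4 * C) * Y ^ (1 - 2 * c) := by ring
        _ = _ := by rw [← h3]; ring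
    exact le_of_mul_le_mul_left h2 (by positivity)
  have hfin : S ^ 2 ≤ (N ^ (1 - c / (4 * P))) ^ 2 := by
    refine hS2.trans ?_
    have h1 : (N ^ (1 - c / (4 * P))) ^ 2 = N ^ 2 * Y ^ (-(c / 2)) := by
      rw [hYdef, ← Real.rpow_mul hN0.le, ← Real.rpow_natCast, ← Real.rpow_mul hN0.le,
        ← Real.rpow_natCast, ← Real.rpow_add hN0]
      congr 1
      push_cast
      field_simp
      ring
    rw [h1]
    apply mul_le_mul_of_nonneg_left _ (by positivity)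
    calc 4 * C * Y ^ (-c) ≤ Y ^ (c / 2) * Y ^ (-c) := by gcongr
      _ = Y ^ (-(c / 2)) := by
          rw [← Real.rpow_add hY0]
          congr 1
          ring
  exact (pow_le_pow_iff_left₀ hS0 (by positivity) two_ne_zero).1 hfin

section

variable {ι : Type} [Fintype ι] [DecidableEq ι] [Nonempty ι]

/-- the power saving -/
theorem sum_be {r : ℕ} (hr : 1 ≤ r) (fo : ι → Fin r) (b : ι → ℕ) (hb : ∀ i, 2 ≤ b i)
    (hcop : ∀ a a', a ≠ a' → fo a = fo a' → (b a).Coprime (b a'))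
    (ρ : ι → ℝ) (hρ1 : ∀ i, 1 ≤ ρ i) (hρ2 : ∀ i, ρ i < (b i : ℝ) ^ 2)
    (α β : Fin r → ℝ) (hα : ∀ j, 0 < α j) (c₀ τ : ℝ) (hc₀ : 0 < c₀) (hτ : 0 ≤ τ)
    (hdio : ∀ (H : ℕ) (h : Fin r → ℤ), h ≠ 0 → (∀ j, |h j| ≤ H) → ∀ m : ℤ,
      c₀ * (H : ℝ) ^ (-τ) ≤ |∑ j, (h j : ℝ) * α j - m|) :
    ∃ η : ℝ, 0 < η ∧ η < 1 ∧ ∀ᶠ X : ℝ in atTop, ∀ N : ℕ, X ≤ N → ∀ c : ι → ℕ → ℂ,
      (∀ i n, ‖c i n‖ = 1) → (∀ i n d, d < b i → c i (b i * n + d) = c i n * c i d) →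
      (∃ i₀, ∀ x, Fd (b i₀) (c i₀) x * Fd (b i₀) (c i₀) (b i₀ * x) ≤ ρ i₀) →
      ∀ (A : ℕ) (θ : ℝ), (∀ j, 0 ≤ α j * A + β j) →
        ‖∑ n ∈ range N, (∏ a, c a ⌊α (fo a) * (A + n : ℕ) + β (fo a)⌋₊) * e ((A + n : ℕ) * θ)‖ ≤
          (N : ℝ) ^ (1 - η) := by
  classical
  set s : ℕ := Fintype.card ι with hs
  have hs1 : 1 ≤ s := Fintype.card_pos
  have hbR : ∀ i, (2 : ℝ) ≤ b i := fun i => by exact_mod_cast hb i
  have hb4 : ∀ i, (4 : ℝ) ≤ (b i : ℝ) ^ 2 := fun i => by nlinarith [hbR i]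
  have hlb : ∀ i, 0 < Real.log ((b i : ℝ) ^ 2) := fun i => Real.log_pos (by linarith [hb4 i])
  set lam : ι → ℝ := fun i => Real.log (ρ i) / Real.log ((b i : ℝ) ^ 2) with hlam
  have hlam1 : ∀ i, lam i < 1 := fun i => by
    rw [hlam]
    simp only
    rw [div_lt_one (hlb i)]
    exact Real.log_lt_log (by linarith [hρ1 i]) (hρ2 i)
  have hρlam : ∀ i, ((b i : ℝ) ^ 2) ^ (lam i) = ρ i := fun i => by
    rw [Real.rpow_def_of_pos (by linarith [hb4 i]), hlam]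
    simp only
    rw [mul_div_cancel₀ _ (hlb i).ne', Real.exp_log (by linarith [hρ1 i])]
  -- the constants
  obtain ⟨i₁, -, hi₁⟩ := exists_max_image univ lam univ_nonempty
  obtain ⟨i₂, -, hi₂⟩ := exists_max_image univ (fun i => (b i : ℝ) ^ 2) univ_nonempty
  set c : ℝ := min ((1 - lam i₁) / 2) (1 / 4) with hc
  have hc0 : 0 < c := lt_min (by linarith [hlam1 i₁]) (by norm_num)
  have hc4 : c ≤ 1 / 4 := min_le_right _ _
  have hclam : ∀ i, lam i ≤ 1 - 2 * c := by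
    intro i
    have h1 := hi₁ i (mem_univ i)
    have h2 : c ≤ (1 - lam i₁) / 2 := min_le_left _ _
    linarith
  set bm : ℝ := (b i₂ : ℝ) ^ 2 with hbm
  have hbmle : ∀ i, (b i : ℝ) ^ 2 ≤ bm := fun i => hi₂ i (mem_univ i)
  have hbm4 : 4 ≤ bm := hb4 i₂
  obtain ⟨Am, hAm, hAm1⟩ : ∃ Am : ℝ, (∀ j, α j ≤ Am) ∧ 1 ≤ Am :=
    ⟨1 + ∑ j, α j, fun j => by
      have := single_le_sum (f := α) (fun j _ => (hα j).le) (mem_univ j)
      linarith, by
      have : 0 ≤ ∑ j, α j := sum_nonneg fun j _ => (hα j).le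
      linarith⟩
  obtain ⟨Q, hQ, hQ1⟩ : ∃ Q : ℝ, (∀ j, 1 / α j + 1 ≤ Q) ∧ 1 ≤ Q :=
    ⟨1 + ∑ j, 1 / α j, fun j => by
      have := single_le_sum (f := fun j => 1 / α j) (fun j _ => by have := hα j; positivity)
        (mem_univ j)
      linarith, by
      have : 0 ≤ ∑ j, 1 / α j := sum_nonneg fun j _ => by have := hα j; positivity
      linarith⟩
  obtain ⟨w, hw⟩ : ∃ w : ℕ, w = 2 * r * (s + 1) + 3 := ⟨_, rfl⟩
  obtain ⟨n1, hn1⟩ : ∃ n1 : ℕ, n1 = (s + 1) * (2 * r) + w * (3 * r) + s := ⟨_, rfl⟩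
  set P : ℝ := n1 + 3 * w * τ + 4 with hP
  have hP4 : 4 ≤ P := by
    have h1 : (0 : ℝ) ≤ n1 := Nat.cast_nonneg _
    have h2 : (0 : ℝ) ≤ 3 * w * τ := by positivity
    linarith
  have hP0 : 0 < P := by linarith
  set C₁ : ℝ := 2 ^ (3 * r) * (2 * (2 ^ 3) ^ τ / c₀) with hC₁
  have hC₁0 : 0 < C₁ := by rw [hC₁]; positivity
  set Dc : ℝ := 4 * (3 + 8 * Q + 8 * r + 4 * s * (Am + 1) * bm) with hDc
  have hDc0 : 0 < Dc := by positivity
  set Cm : ℝ := 3 + bm * (Am + 1) + C₁ + (3 * r + 5) * (1 + 2 * r + 2 * s) + Dc with hCm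
  have hCm3 : 3 ≤ Cm := by
    have h1 : 0 ≤ bm * (Am + 1) := by positivity
    have h2 : (0 : ℝ) ≤ (3 * r + 5) * (1 + 2 * r + 2 * s) := by positivity
    linarith
  refine ⟨c / (4 * P), by positivity, ?_, ?_⟩
  · rw [div_lt_one (by positivity)]
    linarith
  have hY : Tendsto (fun X : ℝ => X ^ (1 / P)) atTop atTop := tendsto_rpow_atTop (by positivity)
  filter_upwards [eventually_ge_atTop (1 : ℝ), hY.eventually (ev_pow 0 (c / 2) Cm (by linarith))]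
    with X hX1 hXC
  intro N hN c' hc1 hcm hFd A θ hA
  obtain ⟨i₀, hFd⟩ := hFd
  have hN1 : (1 : ℝ) ≤ N := hX1.trans hN
  have hN0 : (0 : ℝ) < N := by linarith
  have hX0 : 0 < X := by linarith
  set Y : ℝ := (N : ℝ) ^ (1 / P) with hYdef
  have hXY : X ^ (1 / P) ≤ Y := Real.rpow_le_rpow hX0.le hN (by positivity)
  have hY1 : 1 ≤ Y := Real.one_le_rpow hN1 (by positivity)
  have hY0 : 0 < Y := by linarith
  rw [Real.rpow_zero, mul_one] at hXC
  have hYC2 : Cm ≤ Y ^ (c / 2) := hXC.trans (Real.rpow_le_rpow (by positivity) hXY (by positivity))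
  have hYC1 : Cm ≤ Y ^ c :=
    hYC2.trans (Real.rpow_le_rpow_of_exponent_le hY1 (by linarith))
  have hYC : Cm ≤ Y := by
    calc Cm ≤ Y ^ c := hYC1
      _ ≤ Y ^ (1 : ℝ) := Real.rpow_le_rpow_of_exponent_le hY1 (by linarith)
      _ = Y := Real.rpow_one Y
  have hYbm : bm * (Am + 1) ≤ Y ^ c := by
    have h2 : (0 : ℝ) ≤ (3 * r + 5) * (1 + 2 * r + 2 * s) := by positivity
    linarith
  have hYC₁ : C₁ ≤ Y := by
    have h1 : 0 ≤ bm * (Am + 1) := by positivity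
    have h2 : (0 : ℝ) ≤ (3 * r + 5) * (1 + 2 * r + 2 * s) := by positivity
    linarith
  have hYr : (3 * r + 5) * (1 + 2 * r + 2 * s) ≤ Y := by
    have h1 : 0 ≤ bm * (Am + 1) := by positivity
    linarith
  have hYD : Dc ≤ Y ^ (c / 2) := by
    have h1 : 0 ≤ bm * (Am + 1) := by positivity
    have h2 : (0 : ℝ) ≤ (3 * r + 5) * (1 + 2 * r + 2 * s) := by positivity
    linarith
  have hY3 : 3 ≤ Y := by linarith
  have hNY : (N : ℝ) = Y ^ n1 * Y ^ (3 * w * τ) * Y ^ 4 := by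
    have h1 : (N : ℝ) = Y ^ P := by
      rw [hYdef, ← Real.rpow_mul hN0.le]
      field_simp
      rw [Real.rpow_one]
    rw [h1, hP, Real.rpow_add hY0, Real.rpow_add hY0, Real.rpow_natCast]
    congr 1
    exact_mod_cast Real.rpow_natCast Y 4
  have hYN : Y ≤ N := by
    calc Y = (N : ℝ) ^ (1 / P) := hYdef
      _ ≤ (N : ℝ) ^ (1 : ℝ) := by
          apply Real.rpow_le_rpow_of_exponent_le hN1
          rw [div_le_one hP0]
          linarith
      _ = N := Real.rpow_one _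
  -- the moduli
  have hLex : ∀ i, ∃ L : ℕ, ((b i : ℝ) ^ 2) ^ L ≤ Y ∧ Y < ((b i : ℝ) ^ 2) ^ (L + 1) := fun i =>
    exists_nat_pow_near (by linarith) (by linarith [hb4 i])
  choose L hL1 hL2 using hLex
  set B : ι → ℕ := fun i => b i ^ (2 * L i) with hB
  have hBR : ∀ i, (B i : ℝ) = ((b i : ℝ) ^ 2) ^ (L i) := fun i => by
    rw [hB]; push_cast; rw [pow_mul]
  have hBnat : ∀ i, B i = ((b i) ^ 2) ^ (L i) := fun i => by rw [hB]; simp only; rw [pow_mul]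
  have hBY : ∀ i, (B i : ℝ) ≤ Y := fun i => by rw [hBR]; exact hL1 i
  have hYB : ∀ i, Y ≤ B i * bm := fun i => by
    rw [hBR]
    have h1 := (hL2 i).le
    rw [pow_succ] at h1
    refine h1.trans ?_
    apply mul_le_mul_of_nonneg_left (hbmle i) (by positivity)
  have hBpos : ∀ i, 0 < B i := fun i => by
    rw [hB]
    have := hb i
    positivity
  have hB0 : ∀ i, (0 : ℝ) < B i := fun i => by exact_mod_cast hBpos i
  have hB1 : ∀ i, (1 : ℝ) ≤ B i := fun i => by exact_mod_cast hBpos i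
  have hBcop : ∀ a a', a ≠ a' → fo a = fo a' → (B a).Coprime (B a') := fun i j hij hf => by
    rw [hB]
    exact Nat.Coprime.pow _ _ (hcop i j hij hf)
  have hsp : ∀ i, ∀ m n : ℕ, n < B i → c' i (B i * m + n) = c' i m * c' i n := fun i m n hn =>
    c_split (b i) (hb i) (c' i) (hc1 i) (hcm i) (2 * L i) m n hn
  -- the exponential sums
  set E : ℝ := ρ i₀ ^ (L i₀) with hE
  have hE0 : 0 ≤ E := by
    have := hρ1 i₀
    positivity
  have hEb : ∀ x : ℝ, ‖∑ m ∈ range (B i₀), c' i₀ m * e (m * x)‖ ≤ E := fun x => by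
    rw [hBnat i₀]
    exact T_bound (b i₀) (c' i₀) (hcm i₀) (hc1 i₀ 0).le (ρ i₀) (by linarith [hρ1 i₀]) hFd (L i₀) x
  have hEB : E ≤ (B i₀ : ℝ) ^ (1 - 2 * c) := by
    have h1 : E = (B i₀ : ℝ) ^ (lam i₀) := by
      rw [hE, ← hρlam i₀, hBR i₀]
      exact pw_comm _ (by linarith [hb4 i₀]) _ _
    rw [h1]
    exact Real.rpow_le_rpow_of_exponent_le (hB1 i₀) (hclam i₀)
  -- the number of shifts
  set K : ℕ := ⌊Y ^ (1 - c)⌋₊ with hK
  have hYc : 1 ≤ Y ^ (1 - c) := Real.one_le_rpow (by linarith) (by linarith)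
  have hK1 : (K : ℝ) ≤ Y ^ (1 - c) := Nat.floor_le (by positivity)
  have hK1' : (1 : ℝ) ≤ K := by
    have h2 : 1 ≤ K := Nat.one_le_floor_iff _ |>.2 hYc
    exact_mod_cast h2
  have hK2 : Y ^ (1 - c) / 2 ≤ K := by
    have h1 := Nat.lt_floor_add_one (Y ^ (1 - c))
    linarith
  have hYY : Y ^ c * Y ^ (1 - c) = Y := by
    rw [← Real.rpow_add hY0]
    have : c + (1 - c) = 1 := by ring
    rw [this, Real.rpow_one]
  have hKB : α (fo i₀) * K + 1 ≤ B i₀ := by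
    have hbm0 : 0 < bm := by linarith
    have h1 : (α (fo i₀) * K + 1) * bm ≤ B i₀ * bm := by
      calc (α (fo i₀) * K + 1) * bm ≤ (Am * Y ^ (1 - c) + Y ^ (1 - c)) * bm := by
            have h2 : α (fo i₀) * K ≤ Am * Y ^ (1 - c) := by
              have h3 := hAm (fo i₀)
              gcongr
            gcongr
        _ = (bm * (Am + 1)) * Y ^ (1 - c) := by ring
        _ ≤ Y ^ c * Y ^ (1 - c) := by gcongr
        _ = Y := hYY
        _ ≤ _ := hYB i₀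
    exact le_of_mul_le_mul_right h1 hbm0
  -- the resolution
  set R : ℕ := ⌊Y⌋₊ with hR
  have hR1 : 1 ≤ R := (Nat.one_le_floor_iff _).2 hY1
  have hRY : (R : ℝ) ≤ Y := Nat.floor_le hY0.le
  have hRR1 : (1 : ℝ) ≤ R := by exact_mod_cast hR1
  have hRY2 : Y ≤ 2 * R := by
    have h1 := Nat.lt_floor_add_one Y
    linarith
  set Bt : ℕ := ∏ a, B a with hBt
  have hBt0 : 0 < Bt := prod_pos fun a _ => hBpos a
  have hBtY : (Bt : ℝ) ≤ Y ^ s := by
    rw [hBt]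
    push_cast
    calc ∏ i, (B i : ℝ) ≤ ∏ _i : ι, Y := prod_le_prod (fun i _ => (hB0 i).le) (fun i _ => hBY i)
      _ = Y ^ s := by rw [prod_const, card_univ]
  set q : ℕ := R * Bt with hq
  have hq0 : 0 < q := Nat.mul_pos hR1 hBt0
  have hqR0 : (0 : ℝ) < q := by exact_mod_cast hq0
  have hqY : (q : ℝ) ≤ Y ^ (s + 1) := by
    rw [hq]
    push_cast
    calc (R : ℝ) * Bt ≤ Y * Y ^ s := by gcongr
      _ = Y ^ (s + 1) := by ring
  set K₀ : ℕ := ⌈Y ^ w⌉₊ with hK₀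
  have hK₀1 : Y ^ w ≤ K₀ := Nat.le_ceil _
  have hYw1 : 1 ≤ Y ^ w := one_le_pow₀ hY1
  have hK₀2 : (K₀ : ℝ) ≤ 2 * Y ^ w := by
    have := Nat.ceil_lt_add_one (show 0 ≤ Y ^ w by positivity)
    linarith
  have hK₀0 : (0 : ℝ) < K₀ := by linarith
  have h3q : 3 * q ≤ K₀ := by
    have h1 : (3 : ℝ) * q ≤ K₀ := by
      calc (3 : ℝ) * q ≤ Y * Y ^ (s + 1) := by gcongr
        _ = Y ^ (s + 2) := by ring
        _ ≤ Y ^ w := by
            apply pow_le_pow_right₀ hY1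
            have h5 : 1 * (s + 1) ≤ 2 * r * (s + 1) := Nat.mul_le_mul_right _ (by omega)
            omega
        _ ≤ K₀ := hK₀1
    exact_mod_cast h1
  have hdisc := disc_be hr α β hα c₀ τ hc₀ hdio A hA R Bt N K₀ hR1 hBt0 h3q
  set D : ℝ := (q : ℝ) ^ r * ((3 * r + 4) * N / K₀ +
          (K₀ : ℝ) ^ (3 * r) * (2 * Bt * ((K₀ : ℝ) ^ 3) ^ τ / c₀)) with hD
  have hD1 : (q : ℝ) ^ r * D ≤ (3 * r + 5) * (N / Y ^ 3) := by
    have h1 : (q : ℝ) ^ r * (q : ℝ) ^ r ≤ Y ^ ((s + 1) * (2 * r)) := by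
      calc (q : ℝ) ^ r * (q : ℝ) ^ r = (q : ℝ) ^ (2 * r) := by ring
        _ ≤ (Y ^ (s + 1)) ^ (2 * r) := by gcongr
        _ = _ := by rw [← pow_mul]
    have h2 : (q : ℝ) ^ r * (q : ℝ) ^ r * ((3 * r + 4) * N / K₀) ≤ (3 * r + 4) * (N / Y ^ 3) := by
      have h3 : Y ^ w = Y ^ ((s + 1) * (2 * r)) * Y ^ 3 := by
        rw [← pow_add]
        congr 1
        rw [hw]
        ring
      calc (q : ℝ) ^ r * (q : ℝ) ^ r * ((3 * r + 4) * N / K₀) ≤
            Y ^ ((s + 1) * (2 * r)) * ((3 * r + 4) * N / Y ^ w) := by gcongr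
        _ = _ := by
            rw [h3]
            field_simp
    have h3 : (q : ℝ) ^ r * (q : ℝ) ^ r *
        ((K₀ : ℝ) ^ (3 * r) * (2 * Bt * ((K₀ : ℝ) ^ 3) ^ τ / c₀)) ≤ N / Y ^ 3 := by
      have h4 : ((K₀ : ℝ) ^ 3) ^ τ ≤ (2 ^ 3) ^ τ * Y ^ (3 * w * τ) := by
        calc ((K₀ : ℝ) ^ 3) ^ τ ≤ ((2 * Y ^ w) ^ 3) ^ τ := by gcongr
          _ = (2 ^ 3 * Y ^ (3 * w)) ^ τ := by
              congr 1
              rw [mul_pow, ← pow_mul, mul_comm w 3]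
          _ = (2 ^ 3) ^ τ * (Y ^ (3 * w)) ^ τ := by
              rw [Real.mul_rpow (by norm_num) (by positivity)]
          _ = _ := by
              rw [← Real.rpow_natCast Y, ← Real.rpow_mul hY0.le]
              push_cast
              ring_nf
      calc (q : ℝ) ^ r * (q : ℝ) ^ r * ((K₀ : ℝ) ^ (3 * r) * (2 * Bt * ((K₀ : ℝ) ^ 3) ^ τ / c₀)) ≤
            Y ^ ((s + 1) * (2 * r)) * ((2 * Y ^ w) ^ (3 * r) * (2 * Y ^ s *
              ((2 ^ 3) ^ τ * Y ^ (3 * w * τ)) / c₀)) := by gcongr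
        _ = C₁ * (Y ^ n1 * Y ^ (3 * w * τ)) := by
            rw [hC₁, hn1, mul_pow, pow_add, pow_add, pow_mul Y w]
            ring
        _ ≤ Y * (Y ^ n1 * Y ^ (3 * w * τ)) := by gcongr
        _ = N / Y ^ 3 := by
            rw [hNY]
            field_simp
    have h4 : (q : ℝ) ^ r * D = (q : ℝ) ^ r * (q : ℝ) ^ r * ((3 * r + 4) * N / K₀) +
        (q : ℝ) ^ r * (q : ℝ) ^ r * ((K₀ : ℝ) ^ (3 * r) * (2 * Bt * ((K₀ : ℝ) ^ 3) ^ τ / c₀)) := by
      rw [hD]; ring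
    rw [h4]
    linarith
  have hmain := vdc_be fo B hBpos hBcop c' hc1 hsp i₀ α β hα Am hAm A hA E hE0 hEb R N K hR1 hKB D
    hdisc θ
  set S : ℝ := ‖∑ n ∈ range N, (∏ a, c' a ⌊α (fo a) * (A + n : ℕ) + β (fo a)⌋₊) *
    e ((A + n : ℕ) * θ)‖ with hS
  have hS0 : 0 ≤ S := norm_nonneg _
  -- bounds of the terms
  have hc2 : 1 ≤ Y ^ (1 - 2 * c) := Real.one_le_rpow (by linarith) (by linarith)
  have t1 : (N : ℝ) / B i₀ * (2 * (Real.sqrt (2 * K * (1 / α (fo i₀) + 1) * B i₀) * E)) ≤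
      N * (4 * Q * Y ^ (1 - 2 * c)) := by
    rw [div_mul_eq_mul_div, mul_div_assoc]
    apply mul_le_mul_of_nonneg_left _ hN0.le
    rw [div_le_iff₀ (hB0 i₀)]
    have h1 : Real.sqrt (2 * K * (1 / α (fo i₀) + 1) * B i₀) ≤
        2 * Q * (Y ^ (1 - c) * B i₀) ^ (1 / 2 : ℝ) := by
      rw [← Real.sqrt_eq_rpow]
      have h2 : 2 * K * (1 / α (fo i₀) + 1) * B i₀ ≤ (2 * Q) ^ 2 * (Y ^ (1 - c) * B i₀) := by
        have h3 : (1 : ℝ) / α (fo i₀) + 1 ≤ Q := hQ _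
        have h4 : Q ≤ Q ^ 2 := by
          have h6 : Q * 1 ≤ Q * Q := mul_le_mul_of_nonneg_left hQ1 (by linarith only [hQ1])
          rw [pow_two]
          linarith only [h6]
        have h5 : 0 ≤ 1 / α (fo i₀) + 1 := by have := hα (fo i₀); positivity
        calc 2 * K * (1 / α (fo i₀) + 1) * B i₀ ≤ 2 * Y ^ (1 - c) * Q ^ 2 * B i₀ := by
              gcongr
              exact h3.trans h4
          _ ≤ _ := by
              have e1 : (2 * Q) ^ 2 * (Y ^ (1 - c) * B i₀) = 4 * (Y ^ (1 - c) * Q ^ 2 * B i₀) := by ring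
              have e2 : 2 * Y ^ (1 - c) * Q ^ 2 * B i₀ = 2 * (Y ^ (1 - c) * Q ^ 2 * B i₀) := by ring
              have e3 : 0 ≤ Y ^ (1 - c) * Q ^ 2 * B i₀ := by positivity
              rw [e1, e2]
              linarith only [e3]
      calc Real.sqrt (2 * K * (1 / α (fo i₀) + 1) * B i₀) ≤
            Real.sqrt ((2 * Q) ^ 2 * (Y ^ (1 - c) * B i₀)) := Real.sqrt_le_sqrt h2
        _ = 2 * Q * Real.sqrt (Y ^ (1 - c) * B i₀) := by
            rw [Real.sqrt_mul (by positivity), Real.sqrt_sq (by positivity)]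
    calc 2 * (Real.sqrt (2 * K * (1 / α (fo i₀) + 1) * B i₀) * E) ≤
          2 * ((2 * Q * (Y ^ (1 - c) * B i₀) ^ (1 / 2 : ℝ)) * (B i₀ : ℝ) ^ (1 - 2 * c)) := by gcongr
      _ = 4 * Q * ((Y ^ (1 - c)) ^ (1 / 2 : ℝ) *
            ((B i₀ : ℝ) ^ (1 / 2 : ℝ) * (B i₀ : ℝ) ^ (1 - 2 * c))) := by
          rw [Real.mul_rpow (by positivity) (hB0 i₀).le]
          ring
      _ = 4 * Q * (Y ^ ((1 - c) / 2) * ((B i₀ : ℝ) ^ (1 / 2 - 2 * c) * B i₀)) := by
          congr 2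
          · rw [← Real.rpow_mul hY0.le]
            congr 1
            ring
          · rw [← Real.rpow_add (hB0 i₀)]
            conv_rhs => rw [← Real.rpow_one (B i₀ : ℝ), ← Real.rpow_mul (hB0 i₀).le,
              ← Real.rpow_add (hB0 i₀)]
            congr 1
            ring
      _ ≤ 4 * Q * (Y ^ ((1 - c) / 2) * (Y ^ (1 / 2 - 2 * c) * B i₀)) := by
          have : (B i₀ : ℝ) ^ (1 / 2 - 2 * c) ≤ Y ^ (1 / 2 - 2 * c) :=
            Real.rpow_le_rpow (hB0 i₀).le (hBY i₀) (by linarith)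
          gcongr
      _ = 4 * Q * (Y ^ ((1 - c) / 2 + (1 / 2 - 2 * c))) * B i₀ := by
          rw [Real.rpow_add hY0]
          ring
      _ ≤ 4 * Q * Y ^ (1 - 2 * c) * B i₀ := by
          have : Y ^ ((1 - c) / 2 + (1 / 2 - 2 * c)) ≤ Y ^ (1 - 2 * c) :=
            Real.rpow_le_rpow_of_exponent_le (by linarith) (by linarith)
          gcongr
  have hKY : (K : ℝ) ≤ Y := by
    calc (K : ℝ) ≤ Y ^ (1 - c) := hK1
      _ ≤ Y ^ (1 : ℝ) := Real.rpow_le_rpow_of_exponent_le (by linarith) (by linarith)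
      _ = Y := Real.rpow_one _
  have t2 : (K : ℝ) * ((q : ℝ) ^ r * D * (1 + 2 * r + 2 * s)) ≤ N * Y ^ (1 - 2 * c) := by
    calc (K : ℝ) * ((q : ℝ) ^ r * D * (1 + 2 * r + 2 * s)) ≤
          Y * ((3 * r + 5) * (N / Y ^ 3) * (1 + 2 * r + 2 * s)) := by gcongr
      _ = ((3 * r + 5) * (1 + 2 * r + 2 * s)) * (N / Y ^ 2) := by
          field_simp
      _ ≤ Y * (N / Y ^ 2) := by gcongr
      _ = N / Y := by field_simp
      _ ≤ N := div_le_self hN0.le hY1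
      _ = N * 1 := (mul_one _).symm
      _ ≤ _ := by gcongr
  have t3 : (K : ℝ) * (2 * (r * ((N : ℝ) / R))) ≤ N * (4 * r * Y ^ (1 - 2 * c)) := by
    have h1 : (N : ℝ) / R ≤ 2 * N / Y := by
      rw [div_le_div_iff₀ (by linarith only [hRR1]) hY0]
      calc (N : ℝ) * Y ≤ N * (2 * R) := by gcongr
        _ = _ := by ring
    calc (K : ℝ) * (2 * (r * ((N : ℝ) / R))) ≤ Y * (2 * (r * (2 * N / Y))) := by gcongr
      _ = N * (4 * r * 1) := by field_simp; ring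
      _ ≤ _ := by gcongr
  have t4 : (K : ℝ) * (2 * ∑ a, (N : ℝ) * (Am * K + 1) / B a) ≤
      N * (2 * s * (Am + 1) * bm * Y ^ (1 - 2 * c)) := by
    have h1 : ∀ a ∈ (univ : Finset ι), (N : ℝ) * (Am * K + 1) / B a ≤ N * ((Am + 1) * K * bm / Y) := by
      intro a _
      have h2 : Am * K + 1 ≤ (Am + 1) * K := by
        have h5 : (Am + 1) * K = Am * K + K := by ring
        linarith only [h5, hK1']
      have h3 : (1 : ℝ) / B a ≤ bm / Y := by
        rw [div_le_div_iff₀ (hB0 a) hY0, one_mul, mul_comm]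
        exact hYB a
      calc (N : ℝ) * (Am * K + 1) / B a = N * (Am * K + 1) * (1 / B a) := by ring
        _ ≤ N * ((Am + 1) * K) * (bm / Y) := by
            have h4 : 0 ≤ Am * K + 1 := by positivity
            gcongr
        _ = _ := by ring
    have h2 : ∑ a, (N : ℝ) * (Am * K + 1) / B a ≤ s * (N * ((Am + 1) * K * bm / Y)) := by
      refine (sum_le_card_nsmul _ _ _ h1).trans ?_
      rw [nsmul_eq_mul, card_univ]
    have h3 : (K : ℝ) * K ≤ Y ^ (2 - 2 * c) := by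
      calc (K : ℝ) * K ≤ Y ^ (1 - c) * Y ^ (1 - c) := by gcongr
        _ = Y ^ (2 - 2 * c) := by
            rw [← Real.rpow_add hY0]
            congr 1
            ring
    calc (K : ℝ) * (2 * ∑ a, (N : ℝ) * (Am * K + 1) / B a) ≤
          K * (2 * (s * (N * ((Am + 1) * K * bm / Y)))) := by gcongr
      _ = N * (2 * s * (Am + 1) * bm * ((K * K) / Y)) := by ring
      _ ≤ N * (2 * s * (Am + 1) * bm * (Y ^ (2 - 2 * c) / Y)) := by gcongr
      _ = _ := by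
          have : Y ^ (2 - 2 * c) / Y = Y ^ (1 - 2 * c) := by
            rw [div_eq_iff hY0.ne']
            conv_rhs => rw [← Real.rpow_one Y, ← Real.rpow_mul hY0.le, ← Real.rpow_add hY0]
            congr 1
            ring
          rw [this]
  have hKN : (K : ℝ) ≤ N := hKY.trans hYN
  have hbig := comb_be N K _ _ _ _ (S ^ 2) (Y ^ (1 - 2 * c)) (4 * Q) (4 * r)
    (2 * s * (Am + 1) * bm) hN0.le (by linarith) hKN hc2 (by positivity) (by positivity) (by positivity)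
    hmain t1 t2 t3 t4
  refine last_be N K Y S _ c P hN1 hY0 hP0 hYdef hS0 hK2 hbig ?_
  refine le_trans (le_of_eq ?_) hYD
  rw [hDc]
  ring

end

end Pool.Agent.U602.BE
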