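import Pool.Agent.U602.BE.Corr

set_option autoImplicit false
set_option linter.unusedSectionVars false

/-! Products of strongly multiplicative functions along Beatty sequences: van der Corput's
inequality. -/

namespace Pool.Agent.U602.BE

open Finset
open Pool.Agent.H469R2.NK (e norm_e e_add e_zero conj_e vdcH)
open Pool.Agent.TH915.PW (e_int sum_char e_sub sum_blocks)
open Pool.Agent.U602.MB (corr)

/-- the integer parts of the multiples are met not too often -/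
lemma mult_floor (α : ℝ) (hα : 0 < α) (K M : ℕ) (g : ℕ → ℝ) (hg : ∀ k, 0 ≤ g k)
    (hM : ∀ l < K, ⌊α * l⌋₊ < M) :
    ∑ l ∈ range K, g ⌊α * l⌋₊ ≤ (1 / α + 1) * ∑ k ∈ range M, g k := by
  have h1 : ∑ l ∈ range K, g ⌊α * l⌋₊ = ∑ k ∈ range M,
      (((range K).filter (fun l : ℕ => ⌊α * l⌋₊ = k)).card : ℝ) * g k := by
    rw [← sum_fiberwise_of_maps_to (g := fun l : ℕ => ⌊α * l⌋₊) (t := range M)]
    · refine sum_congr rfl fun k _ => ?_
      rw [sum_congr rfl (g := fun _ => g k) (fun n hn => by rw [(mem_filter.1 hn).2]), sum_const,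
        nsmul_eq_mul]
    · intro l hl
      exact mem_range.2 (hM l (mem_range.1 hl))
  rw [h1, mul_sum]
  refine sum_le_sum fun k _ => ?_
  apply mul_le_mul_of_nonneg_right _ (hg k)
  have h2 : ((range K).filter (fun l : ℕ => ⌊α * l⌋₊ = k)).card ≤ ⌊1 / α⌋₊ + 1 := by
    calc _ ≤ (Ico ⌈(k : ℝ) / α⌉₊ (⌈(k : ℝ) / α⌉₊ + (⌊1 / α⌋₊ + 1))).card := by
          apply card_le_card
          intro l hl
          rw [mem_filter] at hl
          obtain ⟨_, hl⟩ := hl
          rw [Nat.floor_eq_iff (by positivity)] at hl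
          rw [mem_Ico]
          have h3 : (k : ℝ) / α ≤ l := by
            rw [div_le_iff₀ hα]; linarith
          refine ⟨Nat.ceil_le.2 h3, ?_⟩
          have h4 : ((l - ⌈(k : ℝ) / α⌉₊ : ℕ) : ℝ) ≤ 1 / α := by
            have h5 : ⌈(k : ℝ) / α⌉₊ ≤ l := Nat.ceil_le.2 h3
            rw [Nat.cast_sub h5]
            have h6 := Nat.le_ceil ((k : ℝ) / α)
            have h7 : (l : ℝ) < ((k : ℝ) + 1) / α := by
              rw [lt_div_iff₀ hα]; linarith
            rw [add_div] at h7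
            linarith
          have h5 := Nat.le_floor h4
          omega
      _ = _ := by rw [Nat.card_Ico]; omega
  calc (((range K).filter (fun l : ℕ => ⌊α * l⌋₊ = k)).card : ℝ) ≤ ((⌊1 / α⌋₊ + 1 : ℕ) : ℝ) := by
        exact_mod_cast h2
    _ ≤ 1 / α + 1 := by
        push_cast
        have := Nat.floor_le (show 0 ≤ 1 / α by positivity)
        linarith

/-- the correlations along a Beatty sequence, on average -/
lemma corr_mult (α : ℝ) (hα : 0 < α) (c : ℕ → ℂ) (hc : ∀ n, ‖c n‖ ≤ 1) (B : ℕ) (hB : 0 < B) (E : ℝ)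
    (hE0 : 0 ≤ E) (hE : ∀ θ : ℝ, ‖∑ m ∈ range B, c m * e (m * θ)‖ ≤ E) (K : ℕ)
    (hK : α * K + 1 ≤ B) :
    ∑ l ∈ Ico 1 K, (‖∑ m ∈ range B, c (m + ⌊α * l⌋₊) * (starRingEnd ℂ) (c m)‖ +
      ‖∑ m ∈ range B, c (m + (⌊α * l⌋₊ + 1)) * (starRingEnd ℂ) (c m)‖) ≤
        2 * (Real.sqrt (2 * K * (1 / α + 1) * B) * E) := by
  set C : ℕ → ℝ := fun k => ‖∑ m ∈ range B, c (m + k) * (starRingEnd ℂ) (c m)‖ with hC
  have hC0 : ∀ k, 0 ≤ C k := fun k => norm_nonneg _
  have hcorr : ∑ k ∈ range B, C k ^ 2 ≤ 2 * B * E ^ 2 := corr c hc B hB E hE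
  have hfl : ∀ l < K, ⌊α * l⌋₊ < B - 1 := by
    intro l hl
    have h1 : (l : ℝ) < K := by exact_mod_cast hl
    have h2 : α * l < ((B - 1 : ℕ) : ℝ) := by
      have h3 : α * l < α * K := mul_lt_mul_of_pos_left h1 hα
      have h4 : ((B - 1 : ℕ) : ℝ) = B - 1 := by
        rw [Nat.cast_sub (by omega)]; simp
      rw [h4]
      linarith
    exact (Nat.floor_lt (by positivity)).2 h2
  have key : ∀ s : ℕ, s ≤ 1 → ∑ l ∈ Ico 1 K, C (⌊α * l⌋₊ + s) ≤
      Real.sqrt (2 * K * (1 / α + 1) * B) * E := by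
    intro s hs
    have h1 : (∑ l ∈ Ico 1 K, C (⌊α * l⌋₊ + s)) ^ 2 ≤
        ((K - 1 : ℕ) : ℝ) * ∑ l ∈ Ico 1 K, C (⌊α * l⌋₊ + s) ^ 2 := by
      have := sq_sum_le_card_mul_sum_sq (s := Ico 1 K) (f := fun l : ℕ => C (⌊α * l⌋₊ + s))
      rwa [Nat.card_Ico] at this
    have h2 : ∑ l ∈ Ico 1 K, C (⌊α * l⌋₊ + s) ^ 2 ≤ (1 / α + 1) * (2 * B * E ^ 2) := by
      calc ∑ l ∈ Ico 1 K, C (⌊α * l⌋₊ + s) ^ 2 ≤ ∑ l ∈ range K, C (⌊α * l⌋₊ + s) ^ 2 := by
            apply sum_le_sum_of_subset_of_nonneg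
            · intro l hl
              rw [mem_Ico] at hl
              exact mem_range.2 hl.2
            · intro l _ _
              positivity
        _ ≤ (1 / α + 1) * ∑ k ∈ range (B - 1), C (k + s) ^ 2 :=
            mult_floor α hα K (B - 1) (fun k => C (k + s) ^ 2) (fun k => by positivity) hfl
        _ ≤ (1 / α + 1) * ∑ k ∈ range B, C k ^ 2 := by
            apply mul_le_mul_of_nonneg_left _ (by positivity)
            have h3 : ∑ k ∈ range (B - 1), C (k + s) ^ 2 =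
                ∑ k ∈ (range (B - 1)).image (fun k => k + s), C k ^ 2 := by
              rw [sum_image]
              intro a _ b _ h
              simpa using h
            rw [h3]
            apply sum_le_sum_of_subset_of_nonneg
            · intro k hk
              obtain ⟨k', hk', rfl⟩ := mem_image.1 hk
              rw [mem_range] at hk' ⊢
              omega
            · intro k _ _
              positivity
        _ ≤ (1 / α + 1) * (2 * B * E ^ 2) := by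
            apply mul_le_mul_of_nonneg_left hcorr (by positivity)
    have h3 : (∑ l ∈ Ico 1 K, C (⌊α * l⌋₊ + s)) ^ 2 ≤ (2 * K * (1 / α + 1) * B) * E ^ 2 := by
      refine h1.trans ?_
      have hK1 : ((K - 1 : ℕ) : ℝ) ≤ K := by exact_mod_cast Nat.sub_le _ _
      calc ((K - 1 : ℕ) : ℝ) * ∑ l ∈ Ico 1 K, C (⌊α * l⌋₊ + s) ^ 2 ≤
            K * ((1 / α + 1) * (2 * B * E ^ 2)) := by
              apply mul_le_mul hK1 h2 (sum_nonneg fun l _ => by positivity) (by positivity)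
        _ = _ := by ring
    have h4 : (Real.sqrt (2 * K * (1 / α + 1) * B) * E) ^ 2 = (2 * K * (1 / α + 1) * B) * E ^ 2 := by
      rw [mul_pow, Real.sq_sqrt (by positivity)]
    rw [← h4] at h3
    exact (pow_le_pow_iff_left₀ (sum_nonneg fun l _ => norm_nonneg _) (by positivity)
      two_ne_zero).1 h3
  rw [sum_add_distrib]
  have k1 := key 0 (by omega)
  have k2 := key 1 le_rfl
  simp only [add_zero] at k1
  simp only [hC] at k1 k2
  linarith

section

variable {ι : Type} [Fintype ι] [DecidableEq ι]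

/-- van der Corput's inequality for a product of strongly multiplicative functions along Beatty
sequences -/
theorem vdc_be {r : ℕ} (fo : ι → Fin r) (B : ι → ℕ) (hB : ∀ a, 0 < B a)
    (hcop : ∀ a a', a ≠ a' → fo a = fo a' → (B a).Coprime (B a')) (c : ι → ℕ → ℂ)
    (hc1 : ∀ a n, ‖c a n‖ = 1)
    (hs : ∀ a, ∀ m n : ℕ, n < B a → c a (B a * m + n) = c a m * c a n) (a₀ : ι)
    (α β : Fin r → ℝ) (hα : ∀ j, 0 < α j) (Am : ℝ) (hAm : ∀ j, α j ≤ Am) (A : ℕ)
    (hA : ∀ j, 0 ≤ α j * A + β j)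
    (E : ℝ) (hE0 : 0 ≤ E) (hE : ∀ θ : ℝ, ‖∑ m ∈ range (B a₀), c a₀ m * e (m * θ)‖ ≤ E)
    (R N K : ℕ) (hR : 0 < R) (hK : α (fo a₀) * K + 1 ≤ B a₀) (D : ℝ)
    (hD : ∀ N' ≤ N, ∀ v ∈ Cl r (R * ∏ a, B a), |(((range N').filter
      (fun n : ℕ => (fun j => ⌊(R : ℝ) * (α j * (A + n : ℕ) + β j)⌋₊ % (R * ∏ a, B a)) = v)).card : ℝ) -
        N' / ((R * ∏ a, B a : ℕ) : ℝ) ^ r| ≤ D) (θ : ℝ) :
    (K : ℝ) * ‖∑ n ∈ range N, (∏ a, c a ⌊α (fo a) * (A + n : ℕ) + β (fo a)⌋₊) *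
        e ((A + n : ℕ) * θ)‖ ^ 2 ≤
      (N + K) * (N + 2 * ((N : ℝ) / B a₀ *
          (2 * (Real.sqrt (2 * K * (1 / α (fo a₀) + 1) * B a₀) * E)) +
        K * (((R * ∏ a, B a : ℕ) : ℝ) ^ r * D * (1 + 2 * r + 2 * Fintype.card ι) +
          2 * (r * ((N : ℝ) / R)) + 2 * ∑ a, (N : ℝ) * (Am * K + 1) / B a))) := by
  set y : ℕ → Fin r → ℝ := fun n j => α j * (A + n : ℕ) + β j with hy
  have hy0 : ∀ n j, 0 ≤ y n j := by
    intro n j
    rw [hy]
    simp only
    push_cast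
    have h1 := hA j
    have h2 : 0 ≤ α j * n := mul_nonneg (hα j).le (Nat.cast_nonneg n)
    linarith
  have hNN : ∀ j, 0 < Am := fun j => lt_of_lt_of_le (hα j) (hAm j)
  set z : ℕ → ℂ := fun n => (∏ a, c a ⌊y n (fo a)⌋₊) * e ((A + n : ℕ) * θ) with hz
  have hz1 : ∀ n, ‖z n‖ ≤ 1 := by
    intro n
    rw [hz]
    simp only
    rw [norm_mul, norm_e, mul_one, norm_prod]
    exact prod_le_one (fun i _ => norm_nonneg _) (fun i _ => (hc1 i _).le)
  have h1 := vdcH z hz1 N K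
  refine h1.trans ?_
  apply mul_le_mul_of_nonneg_left _ (by positivity)
  have hB0R : (0 : ℝ) < B a₀ := by exact_mod_cast hB a₀
  set q : ℕ := R * ∏ a, B a with hq
  have hq0 : 0 < q := Nat.mul_pos hR (prod_pos fun a _ => hB a)
  set Cf : ℕ → ℝ := fun l =>
    (‖∑ m ∈ range (B a₀), c a₀ (m + ⌊α (fo a₀) * l⌋₊) * (starRingEnd ℂ) (c a₀ m)‖ +
      ‖∑ m ∈ range (B a₀), c a₀ (m + (⌊α (fo a₀) * l⌋₊ + 1)) * (starRingEnd ℂ) (c a₀ m)‖) with hCf
  set Er : ℝ := (q : ℝ) ^ r * D * (1 + 2 * r + 2 * Fintype.card ι) +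
          2 * (r * ((N : ℝ) / R)) + 2 * ∑ a, (N : ℝ) * (Am * K + 1) / B a with hEr
  have hD0 : 0 ≤ D := by
    have h5 : (fun _ : Fin r => 0) ∈ Cl r q := by
      rw [Fintype.mem_piFinset]
      exact fun j => mem_range.2 hq0
    exact (abs_nonneg _).trans (hD 0 (Nat.zero_le _) _ h5)
  have h2 : ∀ l ∈ Ico 1 K, ‖∑ n ∈ range (N - l), z (n + l) * (starRingEnd ℂ) (z n)‖ ≤
      (N : ℝ) / B a₀ * Cf l + Er := by
    intro l hl
    rw [mem_Ico] at hl
    have h3 : ∑ n ∈ range (N - l), z (n + l) * (starRingEnd ℂ) (z n) =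
        e (l * θ) * ∑ n ∈ range (N - l), ∏ a, (c a ⌊y (n + l) (fo a)⌋₊ *
          (starRingEnd ℂ) (c a ⌊y n (fo a)⌋₊)) := by
      rw [mul_sum]
      refine sum_congr rfl fun n _ => ?_
      rw [hz]
      simp only
      rw [map_mul, map_prod, prod_mul_distrib]
      have h4 : e ((A + (n + l) : ℕ) * θ) * (starRingEnd ℂ) (e ((A + n : ℕ) * θ)) = e (l * θ) := by
        rw [← e_sub]
        congr 1
        push_cast
        ring
      rw [← h4]
      ring
    rw [h3, norm_mul, norm_e, one_mul]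
    have hNl : ((N - l : ℕ) : ℝ) ≤ N := by exact_mod_cast Nat.sub_le _ _
    refine (corr_be fo B hB hcop c hc1 hs a₀ y hy0 l (fun j => α j * l)
      (fun j => mul_nonneg (hα j).le (Nat.cast_nonneg l)) (fun n j => by
        rw [hy]
        simp only
        push_cast
        ring) R (N - l) hR D (fun v hv => hD (N - l) (Nat.sub_le _ _) v hv)).trans ?_
    have h5 : ((N - l : ℕ) : ℝ) / B a₀ * Cf l ≤ (N : ℝ) / B a₀ * Cf l := by
      have : 0 ≤ Cf l := add_nonneg (norm_nonneg _) (norm_nonneg _)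
      gcongr
    have h6 : (r : ℝ) * (((N - l : ℕ) : ℝ) / R) ≤ r * ((N : ℝ) / R) := by gcongr
    have h7 : ∑ a, ((N - l : ℕ) : ℝ) * (⌊α (fo a) * l⌋₊ + 1) / B a ≤
        ∑ a, (N : ℝ) * (Am * K + 1) / B a := by
      refine sum_le_sum fun a _ => ?_
      have h8 : ((⌊α (fo a) * l⌋₊ : ℕ) : ℝ) ≤ Am * K := by
        refine (Nat.floor_le (mul_nonneg (hα _).le (Nat.cast_nonneg l))).trans ?_
        have h9 : (l : ℝ) ≤ K := by exact_mod_cast hl.2.le
        exact mul_le_mul (hAm _) h9 (Nat.cast_nonneg l) (hNN (fo a)).le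
      have h9 : (0 : ℝ) ≤ Am * K := le_trans (Nat.cast_nonneg _) h8
      gcongr
    rw [hEr]
    simp only [hCf] at h5
    linarith
  have h3 : ∑ l ∈ Ico 1 K, ‖∑ n ∈ range (N - l), z (n + l) * (starRingEnd ℂ) (z n)‖ ≤
      (N : ℝ) / B a₀ * (2 * (Real.sqrt (2 * K * (1 / α (fo a₀) + 1) * B a₀) * E)) + K * Er := by
    refine (sum_le_sum h2).trans ?_
    rw [sum_add_distrib, ← mul_sum, sum_const, Nat.card_Ico, nsmul_eq_mul]
    have hK1 : ((K - 1 : ℕ) : ℝ) ≤ K := by exact_mod_cast Nat.sub_le _ _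
    have hEr0 : 0 ≤ Er := by
      rw [hEr]
      have hS : 0 ≤ ∑ a, (N : ℝ) * (Am * K + 1) / B a := by
        refine sum_nonneg fun a _ => ?_
        have := hNN (fo a)
        positivity
      positivity
    have h4 := corr_mult (α (fo a₀)) (hα _) (c a₀) (fun n => (hc1 a₀ n).le) (B a₀) (hB a₀) E hE0 hE K hK
    have h5 : (N : ℝ) / B a₀ * ∑ l ∈ Ico 1 K, Cf l ≤
        (N : ℝ) / B a₀ * (2 * (Real.sqrt (2 * K * (1 / α (fo a₀) + 1) * B a₀) * E)) :=
      mul_le_mul_of_nonneg_left h4 (by positivity)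
    have h6 : ((K - 1 : ℕ) : ℝ) * Er ≤ K * Er := mul_le_mul_of_nonneg_right hK1 hEr0
    linarith
  linarith

end

end Pool.Agent.U602.BE
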